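import Mathlib
import Pool.Agent.U462.Sh.ZAdm

set_option autoImplicit false

/-!
# Sexy prime pairs between consecutive cubes: every pattern of the cubes is possible
-/

namespace Pool.Agent.Results.MP_5628fe_nt.AnyPatternOfCubes

open Finset Filter
open scoped Topology
open Pool.Agent.U462.Sh.Law

/-- `S(n)` with the set `S` in place of the primes: the number of pairs of consecutive elements `p, p + 6` of
`S` between `n ^ 3` and `(n + 1) ^ 3` -/
noncomputable def pairs (S : Set ℕ) (n : ℕ) : ℕ :=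
  {p : ℕ | p ∈ S ∧ p + 6 ∈ S ∧ (∀ i : ℕ, 0 < i → i < 6 → p + i ∉ S) ∧ n ^ 3 < p ∧ p + 6 < (n + 1) ^ 3}.ncard

/-- **Every pattern of the cubes is possible.** For every set `N` of natural numbers there is a set `S` of
rough numbers `≥ 2` without elements `p, p + 6` between `n ^ 3` and `(n + 1) ^ 3` for `n` in `N`, in which
the number of pairs of consecutive elements with difference `6` between `n ^ 3` and `(n + 1) ^ 3` tends to
infinity for `n` outside `N`, and for which the uniform Hardy–Littlewood law holds for all systems of linear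
forms and all intervals, except for those systems with two forms `l, l + 6` for which `l` has in the
interval a value `t` with `n ^ 3 < t`, `t + 6 < (n + 1) ^ 3`, `n` in `N`. -/
theorem result : ∀ N : Set ℕ, ∃ S : Set ℕ, (∀ m ∈ S, 2 ≤ m ∧ Rough m) ∧
    (∀ n ∈ N, ∀ p : ℕ, n ^ 3 < p → p + 6 < (n + 1) ^ 3 → ¬ (p ∈ S ∧ p + 6 ∈ S)) ∧
    (∀ K : ℕ, ∃ n₀ : ℕ, ∀ n : ℕ, n₀ ≤ n → n ∉ N → K ≤ pairs S n) ∧
    LawOn S (fun L u v => ∀ a b : ℤ, (a, b) ∈ L → (a, b + 6) ∈ L → ∀ m : ℕ, u ≤ m → m < v → ∀ n ∈ N,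
      ¬ (n ^ 3 < value (a, b) m ∧ value (a, b) m + 6 < (n + 1) ^ 3)) := by
  classical
  intro N
  obtain ⟨S, h1, h2, h3⟩ := Pool.Agent.U462.Sh.shiftOn {0, 6} (by simp)
    {t | ∃ n ∈ N, n ^ 3 < t ∧ t + 6 < (n + 1) ^ 3}
  have hlaw : LawOn S (fun L u v => ∀ a b : ℤ, (a, b) ∈ L → (a, b + 6) ∈ L → ∀ m : ℕ, u ≤ m → m < v → ∀ n ∈ N,
      ¬ (n ^ 3 < value (a, b) m ∧ value (a, b) m + 6 < (n + 1) ^ 3)) := by
    refine Pool.Agent.U462.Sh.on_mono ?_ h3
    rintro L u v hL a b hab m hm1 hm2 ⟨n, hn, h4⟩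
    exact hL a b (by simpa using hab 0 (by simp)) (by simpa using hab 6 (by simp)) m hm1 hm2 n hn h4
  have hfin : ∀ n, {p : ℕ | p ∈ S ∧ p + 6 ∈ S ∧ (∀ i : ℕ, 0 < i → i < 6 → p + i ∉ S) ∧ n ^ 3 < p ∧
      p + 6 < (n + 1) ^ 3}.Finite := fun n =>
    (Set.finite_Iio ((n + 1) ^ 3)).subset (fun t ht => by
      have := ht.2.2.2.2
      simp only [Set.mem_Iio]
      omega)
  -- no element of S which is at least 65536 is divisible by 2, 5 or 7
  have hrough : ∀ m ∈ S, 65536 ≤ m → ∀ p : ℕ, p.Prime → p ≤ 16 → ¬ p ∣ m := by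
    intro m hm hm16 p hp hp16
    have h4 : 4 ≤ Nat.log 2 (Nat.log 2 m) := by
      have h5 : 16 ≤ Nat.log 2 m := Nat.le_log_of_pow_le (by norm_num) (by norm_num; omega)
      exact Nat.le_log_of_pow_le (by norm_num) (by norm_num; omega)
    apply (h1 m hm).2 p hp
    calc p ≤ 2 ^ 2 ^ 2 := by norm_num; omega
      _ ≤ _ := Nat.pow_le_pow_right (by norm_num) (Nat.pow_le_pow_right (by norm_num) (by omega))
  refine ⟨S, h1, ?_, ?_, hlaw⟩
  · rintro n hn t h6 h7 ⟨h4, h5⟩
    apply h2 t ⟨n, hn, h6, h7⟩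
    intro d hd
    simp only [mem_insert, mem_singleton] at hd
    rcases hd with rfl | rfl
    exacts [h4, h5]
  · intro K
    obtain ⟨X0, hX0⟩ := Pool.Agent.U462.Sh.many hlaw {(35, 26), (35, 32)} Pool.Agent.U462.Sh.sexy_sys
      Pool.Agent.U462.Sh.sexy_adm (1 / 3) (by norm_num) K
    refine ⟨X0 + 100, ?_⟩
    intro n hn hnN
    have hbig : X0 ≤ (n + 1) ^ 3 := by
      calc X0 ≤ n + 1 := by omega
        _ ≤ (n + 1) ^ 3 := Nat.le_self_pow (by norm_num) _
    have e3 : (n + 1) ^ 3 = n ^ 3 + 3 * n ^ 2 + 3 * n + 1 := by ring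
    have hn2 : 100 * n ≤ n ^ 2 := by
      calc 100 * n ≤ n * n := Nat.mul_le_mul (by omega) le_rfl
        _ = n ^ 2 := by ring
    have hn3 : 65536 ≤ n ^ 3 := by
      calc 65536 ≤ 100 ^ 3 := by norm_num
        _ ≤ n ^ 3 := Nat.pow_le_pow_left (by omega) 3
    obtain ⟨u, hu⟩ : ∃ u, u = n ^ 3 / 35 + 1 := ⟨_, rfl⟩
    obtain ⟨v, hv⟩ : ∃ v, v = ((n + 1) ^ 3 - 32) / 35 := ⟨_, rfl⟩
    have hu1 : n ^ 3 < 35 * u := by omega
    have hu2 : 35 * u ≤ n ^ 3 + 35 := by omega
    have hv1 : 35 * v ≤ (n + 1) ^ 3 - 32 := by omega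
    have hv2 : (n + 1) ^ 3 - 32 < 35 * v + 35 := by omega
    refine (hX0 ((n + 1) ^ 3) hbig u v (by omega) (by omega) ?_ ?_ ?_).trans ?_
    · have e4 : (((n + 1) ^ 3 : ℕ) : ℝ) ^ (1 / 3 : ℝ) = (n : ℝ) + 1 := by
        push_cast
        rw [← Real.rpow_natCast, ← Real.rpow_mul (by positivity)]
        norm_num
      rw [e4, ← Nat.cast_sub (by omega)]
      exact_mod_cast (by omega : n + 1 ≤ v - u)
    · intro m hm1 hm2 l hl
      simp only [mem_insert, mem_singleton] at hl
      have : (0 : ℤ) ≤ m := Int.natCast_nonneg m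
      rcases hl with rfl | rfl
      · simp only; linarith
      · simp only; linarith
    · intro a b ha hb m hm1 hm2 n' hn' h4
      simp only [mem_insert, mem_singleton, Prod.mk.injEq] at ha hb
      have hab : a = 35 ∧ b = 26 := by omega
      obtain ⟨rfl, rfl⟩ := hab
      have e5 : value (35, 26) m = 35 * m + 26 := by
        unfold value
        have : (35 : ℤ) * (m : ℤ) + 26 = ((35 * m + 26 : ℕ) : ℤ) := by push_cast; ring
        rw [this, Int.toNat_natCast]
      rw [e5] at h4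
      have h5 : n = n' := by
        apply le_antisymm
        · by_contra hcon
          have h6 : (n' + 1) ^ 3 ≤ n ^ 3 := Nat.pow_le_pow_left (by omega) 3
          omega
        · by_contra hcon
          have h6 : (n + 1) ^ 3 ≤ n' ^ 3 := Nat.pow_le_pow_left (by omega) 3
          omega
      rw [h5] at hnN
      exact hnN hn'
    · unfold count pairs
      apply Set.ncard_le_ncard_of_injOn (fun m => 35 * m + 26) _ _ (hfin n)
      · rintro m ⟨hm1, hm2, hall⟩
        have h4 := hall (35, 26) (by simp)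
        have h5 := hall (35, 32) (by simp)
        have e5 : value (35, 26) m = 35 * m + 26 := by
          unfold value
          have : (35 : ℤ) * (m : ℤ) + 26 = ((35 * m + 26 : ℕ) : ℤ) := by push_cast; ring
          rw [this, Int.toNat_natCast]
        have e6 : value (35, 32) m = 35 * m + 32 := by
          unfold value
          have : (35 : ℤ) * (m : ℤ) + 32 = ((35 * m + 32 : ℕ) : ℤ) := by push_cast; ring
          rw [this, Int.toNat_natCast]
        rw [e5] at h4
        rw [e6] at h5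
        refine ⟨h4, h5, ?_, by omega, by omega⟩
        intro i hi1 hi6 hiS
        have b0 : 65536 ≤ 35 * m + 26 := by omega
        have a2 := hrough _ h4 b0 2 Nat.prime_two (by norm_num)
        have a3 := hrough _ hiS (by omega) 2 Nat.prime_two (by norm_num)
        have a5 := hrough _ hiS (by omega) 5 Nat.prime_five (by norm_num)
        have a7 := hrough _ hiS (by omega) 7 (by norm_num) (by norm_num)
        have hi : i = 2 ∨ i = 4 := by
          interval_cases i <;> omega
        rcases hi with rfl | rfl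
        · exact a7 ⟨5 * m + 4, by ring⟩
        · exact a5 ⟨7 * m + 6, by ring⟩
      · intro m _ m' _ h
        simp only at h
        omega

end Pool.Agent.Results.MP_5628fe_nt.AnyPatternOfCubes
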