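import Mathlib
import Pool.Agent.U518.GapPart
import Pool.Agent.X34.E.E4
import Pool.Agent.X34.E.E8

/-!
# Pairs of consecutive primes with one common difference between the consecutive terms of any sequence

The conjecture asks, for all large `n`, for many pairs of consecutive primes `p`, `p + 6` between `n ^ 3` and
`(n + 1) ^ 3`.  Here the cubes are replaced by any increasing sequence `t` with
`(t n) ^ θ ≤ t (n + 1) - t n ≤ t n`, where `θ > 0` is as small as desired (cubes: any `θ < 2 / 3`), the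
difference `6` by an even number `h ≤ 212` which is one and the same up to `x`, and all `n` by the `n` whose
intervals `[t n, t (n + 1))` cover a positive proportion of the integers up to `x`; the proportion depends on
`θ` only, not on the sequence.  The number of the pairs is at least `c (t (n + 1) - t n) / (log (t n)) ^ 45`.

The engine for the windows `(x, 3 x]` is in the starting files `Pool.Agent.X34.E.*` (`gaps_rough`,
`rough_upper`, `dhl45R`), where the case of the integer powers is `powers_pos`.  The passage to arbitrary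
sequences is `Pool.Agent.U518.GapPart.part_pos`.
-/

set_option autoImplicit false

open Finset Filter

namespace Pool.Agent.Results.MP_5628fe_nt.EqualGapsBetweenTerms

/-- `p ≡ a (mod q)` is a prime and the next prime is `p + h` -/
def Starts (q a h p : ℕ) : Prop :=
  p ≡ a [MOD q] ∧ p.Prime ∧ (p + h).Prime ∧ ∀ m, p < m → m < p + h → ¬ m.Prime

/-- the number of the pairs of consecutive primes `p`, `p + h` with `u < p` and `p + h < v` and with `p` in the
residue class of `a` modulo `q` -/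
noncomputable def pairs (q a h u v : ℕ) : ℕ :=
  Set.ncard {p : ℕ | u < p ∧ p + h < v ∧ Starts q a h p}

/-- the number of the integers `m ≤ x` which lie in an interval `[t n, t (n + 1))` with at least
`c (t (n + 1) - t n) / (log (t n)) ^ 45` such pairs -/
noncomputable def covered (c : ℝ) (q a h : ℕ) (t : ℕ → ℕ) (x : ℕ) : ℕ :=
  Set.ncard {m : ℕ | m ≤ x ∧ ∃ n : ℕ, t n ≤ m ∧ m < t (n + 1) ∧
    c * (((t (n + 1) : ℝ) - t n) / Real.log (t n) ^ 45) ≤ (pairs q a h (t n) (t (n + 1)) : ℝ)}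

/-- For all `0 < θ ≤ 1`, `q ≥ 1` and `a` prime to `q` there is `c > 0` such that for every strictly increasing
sequence `t` with `(t n) ^ θ ≤ t (n + 1) - t n ≤ t n` for all large `n` and for all large `x` there is
`1 ≤ k ≤ 106` such that, with `h = k lcm (2, q)`, at least `c x` of the integers `m ≤ x` lie in an interval
`[t n, t (n + 1))` with at least `c (t (n + 1) - t n) / (log (t n)) ^ 45` pairs of consecutive primes `p`, `p + h`
between `t n` and `t (n + 1)`, all with `p` of the class of `a` modulo `q`.  One `k` has this property for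
arbitrarily large `x`. -/
theorem result (θ : ℝ) (hθ : 0 < θ) (hθ1 : θ ≤ 1) (q a : ℕ) (hq : 1 ≤ q) (ha : a.Coprime q) :
    ∃ c : ℝ, 0 < c ∧ ∀ t : ℕ → ℕ, StrictMono t →
      (∀ᶠ n : ℕ in atTop, (t n : ℝ) ^ θ ≤ (t (n + 1) : ℝ) - t n) →
      (∀ᶠ n : ℕ in atTop, (t (n + 1) : ℝ) - t n ≤ t n) →
      (∀ᶠ x : ℕ in atTop, ∃ k : ℕ, 1 ≤ k ∧ k ≤ 106 ∧ c * x ≤ (covered c q a (k * Nat.lcm 2 q) t x : ℝ)) ∧
      ∃ k : ℕ, 1 ≤ k ∧ k ≤ 106 ∧ ∃ᶠ x : ℕ in atTop, c * x ≤ (covered c q a (k * Nat.lcm 2 q) t x : ℝ) := by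
  obtain ⟨a', ha1, ha2⟩ := Pool.Agent.X34.E.lift_class q a hq ha
  have hM0 : 0 < Nat.lcm 2 q := Nat.lcm_pos (by norm_num) hq
  have hM2 : 2 ∣ Nat.lcm 2 q := Nat.dvd_lcm_left 2 q
  have hMq : q ∣ Nat.lcm 2 q := Nat.dvd_lcm_right 2 q
  obtain ⟨c, hc, h⟩ := Pool.Agent.U518.GapPart.part_pos Pool.Agent.X34.E.dhl45R θ hθ hθ1 (Nat.lcm 2 q) a' hM0
    ha2 Pool.Agent.X34.E.G45 Pool.Agent.X34.E.G45_card
    (fun p hp hpM => Pool.Agent.X34.E.G45_adm p hp (fun h2 => hpM (h2 ▸ hM2)))
  refine ⟨c / 7, by positivity, fun t ht h1 h2 => ?_⟩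
  have h3 := h t ht h1 (by
    filter_upwards [h2] with n hn
    have : (t (n + 1) : ℝ) ≤ 2 * t n := by linarith
    exact_mod_cast this)
  have h6 : Tendsto (fun x : ℕ => x / 6) atTop atTop := Nat.tendsto_div_const_atTop (by norm_num)
  have hall : ∀ᶠ x : ℕ in atTop, ∃ k : ℕ, 1 ≤ k ∧ k ≤ 106 ∧
      c / 7 * x ≤ (covered (c / 7) q a (k * Nat.lcm 2 q) t x : ℝ) := by
    filter_upwards [h6.eventually h3, eventually_ge_atTop 42] with x hx hx42
    obtain ⟨g, hg, g', hg', hgg, hx⟩ := hx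
    have h106 := Pool.Agent.X34.E.G45_le g' hg'
    refine ⟨g' - g, by omega, by omega, ?_⟩
    have e1 : c / 7 * (x : ℝ) ≤ c * ((x / 6 : ℕ) : ℝ) := by
      have : x ≤ 7 * (x / 6) := by omega
      have : (x : ℝ) ≤ 7 * ((x / 6 : ℕ) : ℝ) := by exact_mod_cast this
      calc c / 7 * (x : ℝ) ≤ c / 7 * (7 * ((x / 6 : ℕ) : ℝ)) := mul_le_mul_of_nonneg_left this (by positivity)
        _ = _ := by ring
    refine e1.trans (hx.trans ?_)
    unfold covered
    rw [Nat.cast_le]
    refine Set.ncard_le_ncard (fun m hm => ?_) ((Set.finite_Iic x).subset fun m hm => hm.1)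
    obtain ⟨hm1, n, hm2, hm3, hm4⟩ := hm
    refine ⟨by omega, n, hm2, hm3, ?_⟩
    have e2 : 0 ≤ (((t (n + 1) : ℝ) - t n) / Real.log (t n) ^ 45) := by
      apply div_nonneg
      · have : (t n : ℝ) ≤ t (n + 1) := by exact_mod_cast ht.monotone (by omega)
        linarith
      · apply pow_nonneg
        exact Real.log_natCast_nonneg _
    calc c / 7 * (((t (n + 1) : ℝ) - t n) / Real.log (t n) ^ 45) ≤
        c * (((t (n + 1) : ℝ) - t n) / Real.log (t n) ^ 45) :=
          mul_le_mul_of_nonneg_right (by linarith) e2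
      _ ≤ _ := hm4
      _ ≤ _ := by
        unfold pairs
        rw [Nat.cast_le]
        refine Set.ncard_le_ncard (fun p hp => ⟨hp.1, hp.2.1, (hp.2.2.1.of_dvd hMq).trans ha1, hp.2.2.2⟩)
          ((Set.finite_Iio (t (n + 1))).subset fun p hp => ?_)
        have := hp.2.1
        show p < t (n + 1)
        omega
  refine ⟨hall, ?_⟩
  by_contra hcon
  push Not at hcon
  have h7 : ∀ k ∈ Icc 1 106, ∀ᶠ x : ℕ in atTop,
      ¬ c / 7 * x ≤ (covered (c / 7) q a (k * Nat.lcm 2 q) t x : ℝ) := by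
    intro k hk
    rw [mem_Icc] at hk
    have h8 := hcon k hk.1 hk.2
    filter_upwards [h8] with x hx
    exact not_le.2 hx
  have h8 := (Filter.eventually_all_finset _).2 h7
  obtain ⟨x, hx1, hx2⟩ := (hall.and h8).exists
  obtain ⟨k, hk1, hk2, hk3⟩ := hx1
  exact hx2 k (mem_Icc.2 ⟨hk1, hk2⟩) hk3

end Pool.Agent.Results.MP_5628fe_nt.EqualGapsBetweenTerms
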