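import Pool.Agent.U455.CGW
import Pool.Agent.U766.OP.Sq
import Pool.Agent.U766.OP.Exa
import Pool.Agent.Q278.KT.Fin

/-!
# Gaps of dense sets of primes between consecutive cubes generate all multiples of a number economically

For every `δ > 0` there are `h`, `M ≥ 1`, `κ > 0` and `K` such that for ALL large `n`, for EVERY interval
`(a, a + H] ⊆ (n³, (n + 1)³)` of length `H ≥ n ^ 1.845` (for instance the whole interval between the two cubes) and for
EVERY set `Q` of primes of this interval which contains at least the proportion `δ` of them (for instance all of them):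
EVERY multiple `t ≥ K log n` of `M` is a sum of at most `h t / log n` numbers `g ≤ K log n` each of which is the gap
between at least `κ H / (log n)²` pairs of CONSECUTIVE elements of `Q` (the right order of magnitude). As every summand is
at most `K log n`, the number of summands has the smallest possible order `t / log n`.

Proof: by the upper bound sieve (`Pool.Agent.Y840.PT.up`) and the second moment of the singular series
(`Pool.Agent.TH891.SG.CT_mom`) a positive proportion of the even numbers up to `K log n` are popular gaps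
(`Pool.Agent.U455.CGW.pop`). A covering lemma gives a popular gap from which the set of the popular gaps is dense at all
scales in its residue class modulo a bounded number `d`; Schnirelmann's theorem there gives a progression of sums of
boundedly many popular gaps, with difference `d` and length a multiple of `log n` (`Pool.Agent.U455.BTG.local_ap`); the sums
of `j` of its elements, for the right number `j`, reach every `t` (`Pool.Agent.U455.CGW.main`). The number of primes of the
interval is bounded from below by `Pool.Agent.Q278.KT.mainp_043`.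
-/

set_option autoImplicit false

namespace Pool.Agent.Results.MP_5628fe_nt.GapsOfDenseSubsets

open Filter Finset

theorem result (δ : ℝ) (hδ : 0 < δ) : ∃ h M : ℕ, 1 ≤ M ∧ ∃ κ K : ℝ, 0 < κ ∧ ∀ᶠ n : ℕ in atTop,
    ∀ a H : ℕ, n ^ 3 ≤ a → a + H < (n + 1) ^ 3 → (n : ℝ) ^ (1.845 : ℝ) ≤ H →
    ∀ Q : Finset ℕ, Q ⊆ (Ioc a (a + H)).filter Nat.Prime →
      δ * (((Ioc a (a + H)).filter Nat.Prime).card : ℝ) ≤ Q.card →
    ∀ t : ℕ, M ∣ t → K * Real.log n ≤ t →
    ∃ l : List ℕ, l.length * Real.log n ≤ h * t ∧ l.sum = t ∧ ∀ g ∈ l, 1 ≤ g ∧ g ≤ K * Real.log n ∧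
      κ * (H / Real.log n ^ 2) ≤ ((Q.filter (fun q => q + g ∈ Q ∧ ∀ r ∈ Q, q < r → q + g ≤ r)).card : ℝ) := by
  classical
  obtain ⟨c, η, hc, hη, hη1, hall⟩ := Pool.Agent.U766.OP.all_long Pool.Agent.Q278.KT.mainp_043
    (by norm_num) (by norm_num) (by norm_num) (by norm_num)
  obtain ⟨h, M, hM, κ, K, hκ, hK, X₀, hmain⟩ := Pool.Agent.U455.CGW.main (δ * c / 3) (by positivity)
  refine ⟨h, M, hM, κ / 9, 3 * K, by positivity, ?_⟩
  have tn : Tendsto (fun n : ℕ => (n : ℝ)) atTop atTop := tendsto_natCast_atTop_atTop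
  have t3 : Tendsto (fun n : ℕ => (n : ℝ) ^ 3) atTop atTop := (tendsto_pow_atTop (by norm_num)).comp tn
  filter_upwards [t3.eventually hall, eventually_ge_atTop 8, eventually_ge_atTop X₀,
    (Real.tendsto_log_atTop.comp tn).eventually_ge_atTop 3] with n hn hn8 hnX hlog
    a H ha haH hH Q hQ hQc t hMt htK
  have hlog' : 3 ≤ Real.log (n : ℝ) := hlog
  have hn8' : (8 : ℝ) ≤ n := by exact_mod_cast hn8
  have hn0 : (0 : ℝ) < n := by linarith
  have hn1 : (1 : ℝ) ≤ n := by linarith
  have haR : (n : ℝ) ^ 3 ≤ a := by exact_mod_cast ha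
  have haHR : (a : ℝ) + H ≤ ((n : ℝ) + 1) ^ 3 := by exact_mod_cast haH.le
  have hH1 : (H : ℝ) ≤ 4 * (n : ℝ) ^ 2 := by nlinarith [sq_nonneg ((n : ℝ) - 4)]
  have hHn : (n : ℝ) ≤ H := by
    refine le_trans ?_ hH
    calc (n : ℝ) = (n : ℝ) ^ (1 : ℝ) := (Real.rpow_one _).symm
      _ ≤ (n : ℝ) ^ (1.845 : ℝ) := Real.rpow_le_rpow_of_exponent_le hn1 (by norm_num)
  have hH0 : (0 : ℝ) < H := by linarith
  have hHn' : n ≤ H := by exact_mod_cast hHn
  have hHa : H ≤ a := by
    have h1 : (H : ℝ) ≤ a := by nlinarith [sq_nonneg (n : ℝ)]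
    exact_mod_cast h1
  -- the logarithms
  have hl1 : Real.log n ≤ Real.log H := Real.log_le_log hn0 hHn
  have hl2 : Real.log H ≤ 3 * Real.log n := by
    have h1 : (H : ℝ) ≤ (n : ℝ) ^ 3 := by nlinarith [sq_nonneg (n : ℝ)]
    have h2 := Real.log_le_log hH0 h1
    rw [Real.log_pow] at h2
    exact_mod_cast h2
  have hlog3 : Real.log ((n : ℝ) ^ 3) = 3 * Real.log n := by rw [Real.log_pow]; norm_num
  -- the number of primes
  have hprimes : c * H / (3 * Real.log n) ≤ (((Ioc a (a + H)).filter Nat.Prime).card : ℝ) := by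
    have h4 := hn a H haR (by nlinarith [sq_nonneg ((n : ℝ) - 4)]) (by
      refine le_trans ?_ hH
      rw [show (1 : ℝ) - 0.43 + 0.045 - η = 0.615 - η by norm_num, ← Real.rpow_natCast (n : ℝ) 3,
        ← Real.rpow_mul hn0.le]
      apply Real.rpow_le_rpow_of_exponent_le hn1
      push_cast
      linarith)
    rw [Pool.Agent.U766.OP.pic_nat, hlog3] at h4
    exact h4
  have hQsub : Q ⊆ Ioc a (a + H) := fun p hp => (mem_filter.1 (hQ hp)).1
  have hQp : ∀ p ∈ Q, p.Prime := fun p hp => (mem_filter.1 (hQ hp)).2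
  have hQc' : δ * c / 3 * (H / Real.log H) ≤ Q.card := by
    refine le_trans ?_ hQc
    calc δ * c / 3 * (H / Real.log H) ≤ δ * c / 3 * (H / Real.log n) := by gcongr
      _ = δ * (c * H / (3 * Real.log n)) := by field_simp
      _ ≤ _ := mul_le_mul_of_nonneg_left hprimes hδ.le
  obtain ⟨l, hl1', hl2', hl3⟩ := hmain a H (hnX.trans hHn') hHa Q hQsub hQp hQc' t hMt (by
    calc K * Real.log H ≤ K * (3 * Real.log n) := by gcongr
      _ = 3 * K * Real.log n := by ring
      _ ≤ t := htK)
  have hNx : ∀ g : ℕ, Q.filter (Pool.Agent.U455.CGW.Nx Q g) =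
      Q.filter (fun q => q + g ∈ Q ∧ ∀ r ∈ Q, q < r → q + g ≤ r) := by
    intro g
    ext q
    rw [mem_filter, mem_filter]
    rfl
  refine ⟨l, le_trans ?_ hl1', hl2', fun g hg => ⟨(hl3 g hg).1, (hl3 g hg).2.1.trans ?_, le_trans ?_
    ((hl3 g hg).2.2.trans (le_of_eq (by rw [hNx])))⟩⟩
  · exact mul_le_mul_of_nonneg_left hl1 (Nat.cast_nonneg _)
  · calc K * Real.log H ≤ K * (3 * Real.log n) := by gcongr
      _ = 3 * K * Real.log n := by ring
  have h5 : (H : ℝ) / (3 * Real.log n) ^ 2 ≤ H / Real.log H ^ 2 := by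
    have : 0 < Real.log (H : ℝ) := by linarith
    gcongr
  calc κ / 9 * (H / Real.log n ^ 2) = κ * (H / (3 * Real.log n) ^ 2) := by
        rw [mul_pow]
        field_simp
        norm_num
    _ ≤ κ * (H / Real.log H ^ 2) := by gcongr

end Pool.Agent.Results.MP_5628fe_nt.GapsOfDenseSubsets
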