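import Pool.Agent.U485.SM.All

/-!
# Consecutive elements with difference 6 between consecutive cubes, in sieved random models of the primes

`T` is nondecreasing, tends to infinity, `T(n) = n^{o(1)}`; every `n` without prime factors `≤ T(n)` is chosen
independently with probability `min(1, ∏_{p ≤ T(n)} (1 - 1/p)⁻¹ / log n)`. Almost surely the number of the pairs of
CONSECUTIVE chosen numbers with difference 6 between `n ^ 3` and `(n + 1) ^ 3` is asymptotic to
`(4 C / 3) n² / (log n)²`, and the same holds, with the predicted constant, for every even difference, between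
consecutive `e`-th powers and in all windows `(x, x + h]`, `x^η ≤ h ≤ x`.

Project HT: packages of helper891, helper660, helper139, helper803, helper445, helper373, helper741, helper668,
helper333, helper200, helper2, helper864, helper934, helper61.
-/

set_option autoImplicit false

namespace Pool.Agent.Results.MP_5628fe_nt.SexyPairsInRandomModels

open MeasureTheory Filter Topology Pool.Agent.U485.SM

/-- the number of the pairs `p, p + d` of consecutive elements of `Q` with `n ^ e < p < p + d < (n + 1) ^ e` -/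
noncomputable def between (Q : Set ℕ) (d e n : ℕ) : ℕ :=
  {p : ℕ | n ^ e < p ∧ p + d < (n + 1) ^ e ∧ p ∈ Q ∧ p + d ∈ Q ∧ ∀ j : ℕ, 0 < j → j < d → p + j ∉ Q}.ncard

/-- the number of the pairs `p, p + d` of consecutive elements of `Q` with `p` in `(x, x + h]` -/
noncomputable def window (Q : Set ℕ) (d x h : ℕ) : ℕ :=
  {p : ℕ | x < p ∧ p ≤ x + h ∧ p ∈ Q ∧ p + d ∈ Q ∧ ∀ j : ℕ, 0 < j → j < d → p + j ∉ Q}.ncard

/-- `2 C ∏ (p - 1)/(p - 2)` over the odd prime factors `p` of `d` -/
noncomputable def S (C : ℝ) (d : ℕ) : ℝ :=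
  2 * C * ∏ p ∈ d.primeFactors.filter (fun p => 2 < p), (((p : ℝ) - 1) / (p - 2))

theorem sup_pair (d : ℕ) : ({0, d} : Finset ℕ).sup id = d := by
  simp

theorem pair_set (Q : Set ℕ) (d p : ℕ) (hd : 0 < d) :
    (∀ j ≤ ({0, d} : Finset ℕ).sup id, (p + j ∈ Q ↔ j ∈ ({0, d} : Finset ℕ))) ↔
      p ∈ Q ∧ p + d ∈ Q ∧ ∀ j : ℕ, 0 < j → j < d → p + j ∉ Q := by
  rw [sup_pair]
  simp only [Finset.mem_insert, Finset.mem_singleton]
  constructor
  · intro h
    refine ⟨by simpa using (h 0 (by omega)).2 (Or.inl rfl), (h d le_rfl).2 (Or.inr rfl), fun j h1 h2 h3 => ?_⟩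
    rcases (h j h2.le).1 h3 with h4 | h4 <;> omega
  · rintro ⟨h1, h2, h3⟩ j hj
    constructor
    · intro h4
      by_contra h5
      push Not at h5
      exact h3 j (by omega) (by omega) h4
    · rintro (rfl | rfl)
      · simpa using h1
      · exact h2

/-- **Sexy pairs between consecutive cubes, and consecutive elements with any even difference.** -/
theorem result : ∃ C : ℝ, 0 < C ∧
    Tendsto (fun y : ℕ => ∏ p ∈ (Finset.Icc 3 y).filter Nat.Prime, (1 - 1 / ((p : ℝ) - 1) ^ 2)) atTop (𝓝 C) ∧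
    ∀ (Ω : Type) [MeasurableSpace Ω] (μ : Measure Ω) [IsProbabilityMeasure μ] (T : ℕ → ℕ) (E : ℕ → Set Ω),
      Monotone T → Tendsto T atTop atTop → (∀ ε : ℝ, 0 < ε → ∀ᶠ n : ℕ in atTop, (T n : ℝ) ≤ (n : ℝ) ^ ε) →
      Model μ T E → ∀ᵐ ω ∂μ,
        Tendsto (fun n : ℕ => (between {m | ω ∈ E m} 6 3 n : ℝ) * (Real.log n) ^ 2 / (n : ℝ) ^ 2) atTop
          (𝓝 (4 * C / 3)) ∧
        ∀ d : ℕ, Even d → 0 < d →
          (∀ e : ℕ, 2 ≤ e → Tendsto (fun n : ℕ =>
            (between {m | ω ∈ E m} d e n : ℝ) * (Real.log n) ^ 2 / (n : ℝ) ^ (e - 1)) atTop (𝓝 (S C d / e))) ∧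
          ∀ δ η : ℝ, 0 < δ → 0 < η → ∀ᶠ x : ℕ in atTop, ∀ h : ℕ, (x : ℝ) ^ η ≤ h → h ≤ x →
            |(window {m | ω ∈ E m} d x h : ℝ) * (Real.log x) ^ 2 / h - S C d| ≤ δ := by
  obtain ⟨C, hC0, hC, hPP⟩ := co2
  refine ⟨C, hC0, hC, ?_⟩
  intro Ω _ μ _ T E hT hTt hTs hE
  filter_upwards [as_H hT hTt hTs hE] with ω hω
  refine ⟨sex _ hω C hC, fun d hd hd0 => ?_⟩
  have hcard : ({0, d} : Finset ℕ).card = 2 := Finset.card_pair (by omega)
  constructor
  · intro e he
    have h1 := exact_pow sin pwr hω {0, d} _ (hPP d hd hd0) e he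
    rw [hcard] at h1
    have h2 : 2 * C * (∏ p ∈ d.primeFactors.filter (fun p => 2 < p), (((p : ℝ) - 1) / (p - 2))) * e / (e : ℝ) ^ 2 =
        S C d / e := by
      have : (e : ℝ) ≠ 0 := by
        have : e ≠ 0 := by omega
        exact_mod_cast this
      unfold S
      field_simp
    rw [h2] at h1
    refine h1.congr fun n => ?_
    unfold between powx
    simp only [pair_set _ d _ hd0]
    rw [sup_pair]
  · intro δ η hδ hη
    filter_upwards [exact sin hω {0, d} _ (hPP d hd hd0) δ η hδ hη, eventually_ge_atTop 1] with x hx hx1 h h1 h2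
    have h3 := hx h h1 h2
    rw [hcard] at h3
    have hx0 : (0 : ℝ) < x := by exact_mod_cast hx1
    have hh : (0 : ℝ) < h := lt_of_lt_of_le (Real.rpow_pos_of_pos hx0 η) h1
    unfold numx at h3
    simp only [pair_set _ d _ hd0] at h3
    exact quot hh h3

end Pool.Agent.Results.MP_5628fe_nt.SexyPairsInRandomModels
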